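import Pool.Agent.R587.CoAn
import Pool.Agent.R587.CoMain
import Pool.Agent.R587.VL

/-!
# Coanalytic rigid spaces under `V = L`
-/

set_option autoImplicit false

namespace Pool.Agent.Results.MP_5debab_gt.Coanalytic

open Pool.Agent.R587

/-- Under `V = L` there is a coanalytic subspace of the Cantor space that is `𝔠`-crowded and rigid
but not `𝔠`-hereditarily rigid. -/
theorem result (hV : VL) : ∃ X : Set (ℕ → Bool), MeasureTheory.AnalyticSet Xᶜ ∧ CCrowded X ∧
    RigidSp X ∧ ¬ CHerRigid X :=
  co_main hV.vlv analytic_RX_compl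

end Pool.Agent.Results.MP_5debab_gt.Coanalytic
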